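import Mathlib

namespace Pool.Agent.Results.MP_811a2c_al.Embeds

/-- The special semidirect product S(M): pairs (subset, element). -/
@[ext] structure SM (M : Type) where
  X : Set M
  x : M

instance (M : Type) [Monoid M] : Monoid (SM M) where
  mul a b := ⟨a.X ∪ (fun y => a.x * y) '' b.X, a.x * b.x⟩
  one := ⟨∅, 1⟩
  mul_assoc a b c := by
    refine SM.ext ?_ (mul_assoc _ _ _)
    change (a.X ∪ _) ∪ (fun y => a.x * b.x * y) '' c.X = a.X ∪ (fun y => a.x * y) '' (b.X ∪ _)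
    rw [Set.image_union, Set.image_image, Set.union_assoc]; simp only [mul_assoc]
  one_mul a := by
    refine SM.ext ?_ (one_mul _)
    change ∅ ∪ (fun y => 1 * y) '' a.X = a.X
    simp
  mul_one a := by
    refine SM.ext ?_ (mul_one _)
    change a.X ∪ _ '' ∅ = a.X
    simp

/-- The congruence generated by H on the free left act S x I. -/
def Gen {S I : Type} [Monoid S] (H : Set ((S × I) × (S × I))) : S × I → S × I → Prop :=
  Relation.EqvGen fun a b => ∃ u : S, ∃ p ∈ H, a = (u * p.1.1, p.1.2) ∧ b = (u * p.2.1, p.2.2)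

/-- Finitely presented left acts. -/
def FP (S A : Type) [Monoid S] [MulAction S A] : Prop :=
  ∃ (k : ℕ) (g : Fin k → A) (H : Set ((S × Fin k) × (S × Fin k))), H.Finite ∧
    (∀ a : A, ∃ s : S, ∃ i, a = s • g i) ∧
    ∀ a b : S × Fin k, a.1 • g a.2 = b.1 • g b.2 ↔ Gen H a b

/-- Left coherent monoids. -/
def LeftCoherent (S : Type) [Monoid S] : Prop :=
  ∀ (A : Type) [MulAction S A], FP S A → ∀ B : SubMulAction S A,
    (∃ T : Set A, T.Finite ∧ ∀ a, a ∈ B ↔ ∃ t ∈ T, ∃ s : S, a = s • t) → FP S B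

theorem mul_def {M : Type} [Monoid M] (a b : SM M) :
    a * b = ⟨a.X ∪ (fun y => a.x * y) '' b.X, a.x * b.x⟩ := rfl

theorem e_mul {M : Type} [Monoid M] (W P : Set M) (y : M) :
    (⟨W, 1⟩ : SM M) * ⟨P, y⟩ = ⟨W ∪ P, y⟩ := by simp [mul_def]

def LZ : Type := ℕ
instance : Semigroup LZ where
  mul a _ := a
  mul_assoc _ _ _ := rfl

inductive K2 : Type
  | t | f
  deriving DecidableEq, Fintype

instance : Semigroup K2 where
  mul _ _ := K2.f
  mul_assoc _ _ _ := rfl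

abbrev MM (K : Type) [Semigroup K] : Type := WithOne (LZ × K)

def el {K : Type} [Semigroup K] (m : ℕ) (k : K) : MM K := ((m, k) : LZ × K)

theorem el_mul {K : Type} [Semigroup K] (m m' : ℕ) (k k' : K) :
    el m k * el m' k' = el m (k * k') := rfl

theorem el_inj {K : Type} [Semigroup K] {m m' : ℕ} {k k' : K} (h : el m k = el m' k') :
    m = m' ∧ k = k' := Prod.mk.inj (WithOne.coe_inj.1 h)

theorem el_ne {K : Type} [Semigroup K] (m : ℕ) (k : K) : el m k ≠ 1 := WithOne.coe_ne_one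

theorem cases_MM {K : Type} [Semigroup K] (x : MM K) : x = 1 ∨ ∃ m k, x = el m k := by
  induction x using WithOne.recOneCoe with
  | one => exact Or.inl rfl
  | coe a => exact Or.inr ⟨a.1, a.2, rfl⟩

def row {K : Type} [Semigroup K] (m : ℕ) : Set (MM K) := Set.range (el m)

theorem row_mul {K : Type} [Semigroup K] {m : ℕ} {y : MM K} (h : y ∈ row m) (x : MM K) :
    y * x ∈ row m := by
  obtain ⟨k, rfl⟩ := h
  rcases cases_MM x with rfl | ⟨m', k', rfl⟩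
  exacts [⟨k, (mul_one _).symm⟩, ⟨_, (el_mul _ _ _ _).symm⟩]

theorem gen_sound {S I A : Type} [Monoid S] [MulAction S A] (g : I → A)
    {H : Set ((S × I) × (S × I))} (hH : ∀ p ∈ H, p.1.1 • g p.1.2 = p.2.1 • g p.2.2) {a b : S × I}
    (h : Gen H a b) : a.1 • g a.2 = b.1 • g b.2 := by
  induction h with
  | rel a b h => obtain ⟨u, p, hp, rfl, rfl⟩ := h; simp only [mul_smul, hH p hp]
  | refl => rfl
  | symm _ _ _ ih => exact ih.symm
  | trans _ _ _ _ _ h1 h2 => exact h1.trans h2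

theorem coherent (K : Type) [Monoid K] [Finite K] : LeftCoherent (SM (MM K)) := by
  rintro A _ ⟨k, g, H, hH, hg, hker⟩ B ⟨T, hT, hB⟩
  obtain ⟨n, b, hb⟩ := hT.fin_param
  replace hb := hb.2
  choose a ι ha using fun j => hg (b j)
  have hHs : ∀ p ∈ H, p.1.1 • g p.1.2 = p.2.1 • g p.2.2 := fun p hp =>
    (hker _ _).2 (Relation.EqvGen.rel _ _ ⟨1, p, hp, by simp, by simp⟩)
  obtain ⟨D, hD, hD1, hD2, hD3⟩ : ∃ D : Set (SM (MM K)), D.Finite ∧ (∀ p ∈ H, p.1.1 ∈ D) ∧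
      (∀ p ∈ H, p.2.1 ∈ D) ∧ ∀ j, a j ∈ D :=
    ⟨(fun p => p.1.1) '' H ∪ (fun p => p.2.1) '' H ∪ Set.range a,
      ((hH.image _).union (hH.image _)).union (Set.finite_range _),
      fun p hp => Or.inl (Or.inl ⟨p, hp, rfl⟩), fun p hp => Or.inl (Or.inr ⟨p, hp, rfl⟩),
      fun j => Or.inr ⟨j, rfl⟩⟩
  obtain ⟨N, hN⟩ : ∃ N : ℕ, ∀ d ∈ D, ∀ m, d.x ∈ row m → m ≤ N := by
    have : ∀ d : SM (MM K), ∃ N : ℕ, ∀ m, d.x ∈ row m → m ≤ N := by
      intro d
      rcases cases_MM d.x with h | ⟨m, k, h⟩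
      · exact ⟨0, fun m ⟨k, hk⟩ => absurd (hk.trans h) (el_ne _ _)⟩
      · exact ⟨m, fun m' ⟨k, hk⟩ => (el_inj (hk.trans h)).1.le⟩
    choose f hf using this
    obtain ⟨N, hN⟩ := (hD.image f).bddAbove
    exact ⟨N, fun d hd m hm => (hf d m hm).trans (hN ⟨d, hd, rfl⟩)⟩
  let Ma : Set (MM K) := {x | ∀ m, x ∈ row m → m ≤ N}
  have hMa : Ma.Finite := by
    refine ((Set.finite_singleton 1).union
      (((Set.finite_Iic N).prod (Set.finite_univ (α := K))).image fun p => el p.1 p.2)).subset ?_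
    intro x hx
    rcases cases_MM x with rfl | ⟨m, k, rfl⟩
    exacts [Or.inl rfl, Or.inr ⟨(m, k), ⟨hx m ⟨k, rfl⟩, trivial⟩, rfl⟩]
  have rowu : ∀ {x : MM K} {m m'}, x ∈ row m → x ∈ row m' → m = m' := by
    rintro x m m' ⟨k, rfl⟩ ⟨k', h⟩; exact (el_inj h).1.symm
  have mulrow : ∀ (y x : MM K) (m : ℕ), x ∈ Ma → N < m → (y * x ∈ row m ↔ y ∈ row m) := by
    intro y x m hx hm
    refine ⟨fun h => ?_, fun h => row_mul h x⟩
    rcases cases_MM y with rfl | ⟨m', k', rfl⟩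
    · rw [one_mul] at h; exact absurd (hx m h) (by omega)
    · exact rowu (row_mul ⟨k', rfl⟩ x) h ▸ ⟨k', rfl⟩
  have mulMa : ∀ y x : MM K, x ∈ Ma → (y * x ∈ Ma ↔ y ∈ Ma) := fun y x hx =>
    forall_congr' fun m => ⟨fun h h' => h (row_mul h' x), fun h h' => by
      by_contra hm; exact hm (h ((mulrow y x m hx (by omega)).1 h'))⟩
  have := hD.to_subtype
  have := hMa.to_subtype
  let χ : MM K → (D → Prop) × (Ma → Prop) := fun x => (fun d => x ∈ d.1.X, fun m => x = m.1)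
  let Sat : Set (MM K) → Prop := fun X => ∀ x x', χ x' = χ x → x ∈ X → x' ∈ X
  have hSat : {X | Sat X}.Finite := by
    refine (Set.finite_range fun Y : Set _ => χ ⁻¹' Y).subset fun X hX => ⟨χ '' X, ?_⟩
    ext x; exact ⟨fun ⟨x', h, e⟩ => hX _ _ e.symm h, fun h => ⟨x, h, rfl⟩⟩
  have satMa : ∀ X, X ⊆ Ma → Sat X := fun X hX x x' e h => by
    have : x' = x := (congrFun (congrArg Prod.snd e) ⟨x, hX h⟩).mpr rfl
    exact this ▸ h
  have satD : ∀ y ∈ Ma, ∀ d ∈ D, Sat ((fun x => y * x) '' d.X) := by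
    intro y hy d hd
    rcases cases_MM y with rfl | ⟨m, k, rfl⟩
    · intro x x' e h
      simp only [one_mul, Set.image_id'] at h ⊢
      exact (congrFun (congrArg Prod.fst e) ⟨d, hd⟩).mpr h
    · refine satMa _ ?_
      rintro _ ⟨x, -, rfl⟩ m' h
      exact rowu (row_mul ⟨k, rfl⟩ x) h ▸ hy m ⟨k, rfl⟩
  have satU : ∀ X Y, Sat X → Sat Y → Sat (X ∪ Y) := fun X Y h1 h2 x x' e h =>
    h.imp (h1 x x' e) (h2 x x' e)
  let it : Set (MM K) → Set (MM K) := fun V => {x | ∀ x', χ x' = χ x → x' ∈ V}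
  have it_sub : ∀ V, it V ⊆ V := fun V x h => h x rfl
  have it_sat : ∀ V, Sat (it V) := fun V x x' e h x'' e' => h x'' (e'.trans e)
  have sub_it : ∀ Z V, Sat Z → Z ⊆ V → Z ⊆ it V := fun Z V h h' x hx x' e => h' (h x x' e hx)
  have it_u : ∀ U C E, Sat C → it ((U ∪ C) ∩ (U ∪ E)) ∪ C = it (U ∪ C) := by
    intro U C E hC
    refine Set.Subset.antisymm (Set.union_subset (fun x h x' e => (h x' e).1)
      (sub_it _ _ hC Set.subset_union_right)) fun x h => ?_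
    by_cases hx : x ∈ C
    · exact Or.inr hx
    · refine Or.inl fun x' e => ⟨h x' e, Or.inl ((h x' e).resolve_right fun h' => hx ?_)⟩
      exact hC _ _ e.symm h'
  clear_value it Sat χ
  have Q1 : ∀ p q : SM (MM K) × Fin k, Gen H p q → (p.1.x ∈ Ma ↔ q.1.x ∈ Ma) ∧ (p.1.x ∈ Ma →
      (⟨it p.1.X, p.1.x⟩ : SM (MM K)) • g p.2 = (⟨it q.1.X, q.1.x⟩ : SM (MM K)) • g q.2 ∧
      ∃ Z, Sat Z ∧ (⟨Z, 1⟩ : SM (MM K)) • (⟨it p.1.X, p.1.x⟩ : SM (MM K)) • g p.2 =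
        (⟨it p.1.X, p.1.x⟩ : SM (MM K)) • g p.2 ∧ p.1.X ∪ Z = q.1.X ∪ Z) := by
    intro p q h
    induction h with
    | rel p q h =>
      obtain ⟨u, ⟨⟨c, i⟩, d, j⟩, hp, rfl, rfl⟩ := h
      have hc : c ∈ D := hD1 _ hp
      have hd : d ∈ D := hD2 _ hp
      simp only [mul_def, mulMa _ _ (hN c hc), mulMa _ _ (hN d hd), true_and]
      intro hy
      have s1 := satD _ hy c hc
      have s2 := satD _ hy d hd
      have e := congrArg ((⟨it ((u.X ∪ (fun x => u.x * x) '' c.X) ∩ (u.X ∪ (fun x => u.x * x) '' d.X)),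
        u.x⟩ : SM (MM K)) • ·) (hHs _ hp)
      simp only [← mul_smul, mul_def] at e
      rw [it_u _ _ _ s1, Set.inter_comm, it_u _ _ _ s2] at e
      refine ⟨e, _ ∪ _, satU _ _ s1 s2, ?_, by
        simp only [Set.union_assoc, Set.union_self, Set.union_left_comm ((fun x => u.x * x) '' d.X),
          ← Set.union_assoc ((fun x => u.x * x) '' c.X)]⟩
      rw [← e_mul _ _ 1, mul_smul]
      conv_lhs => rw [e, ← mul_smul (SM.mk ((fun x => u.x * x) '' d.X) 1), e_mul,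
        Set.union_eq_self_of_subset_left (sub_it _ _ s2 Set.subset_union_right), ← e]
      rw [← mul_smul, e_mul, Set.union_eq_self_of_subset_left (sub_it _ _ s1 Set.subset_union_right)]
    | refl p => exact ⟨Iff.rfl, fun _ => ⟨rfl, ∅, satMa _ (Set.empty_subset _), one_smul _ _, rfl⟩⟩
    | symm p q _ ih =>
      refine ⟨ih.1.symm, fun h => ?_⟩
      obtain ⟨h1, Z, h2, h3, h4⟩ := ih.2 (ih.1.2 h)
      exact ⟨h1.symm, Z, h2, h1 ▸ h3, h4.symm⟩
    | trans p q r _ _ ih ih' =>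
      refine ⟨ih.1.trans ih'.1, fun h => ?_⟩
      obtain ⟨h1, Z, h2, h3, h4⟩ := ih.2 h
      obtain ⟨h1', Z', h2', h3', h4'⟩ := ih'.2 (ih.1.1 h)
      refine ⟨h1.trans h1', Z ∪ Z', satU _ _ h2 h2', ?_, ?_⟩
      · rw [← h1] at h3'
        rw [← e_mul _ _ 1, mul_smul, h3', h3]
      · rw [← Set.union_assoc, h4, Set.union_right_comm, h4', Set.union_right_comm, Set.union_assoc]
  let o : MM K := el 0 1
  let mv : ℕ → SM (MM K) → SM (MM K) := fun m s => ⟨(fun x => o * x) '' (s.X ∩ row m), o * s.x⟩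
  have mv_mul : ∀ m (u c : SM (MM K)), u.x ∈ row m → mv m (u * c) = mv m u * c ∧
      (u * c).X \ row m = u.X \ row m := by
    intro m u c hu
    have : (fun y => u.x * y) '' c.X ⊆ row m := by rintro _ ⟨x, -, rfl⟩; exact row_mul hu x
    refine ⟨SM.ext ?_ (mul_assoc _ _ _).symm, ?_⟩
    · simp only [mv, mul_def]
      rw [Set.union_inter_distrib_right, Set.inter_eq_self_of_subset_left this, Set.image_union,
        Set.image_image]
      simp only [mul_assoc]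
    · simp only [mul_def]
      rw [Set.union_sdiff_distrib, Set.sdiff_eq_empty.2 this, Set.union_empty]
  have Q2 : ∀ m, N < m → ∀ p q : SM (MM K) × Fin k, Gen H p q →
      (p.1.x ∈ row m ↔ q.1.x ∈ row m) ∧ (p.1.x ∈ row m →
      mv m p.1 • g p.2 = mv m q.1 • g q.2 ∧ p.1.X \ row m = q.1.X \ row m) := by
    intro m hm p q h
    induction h with
    | rel p q h =>
      obtain ⟨u, ⟨⟨c, i⟩, d, j⟩, hp, rfl, rfl⟩ := h
      have e1 := mulrow u.x _ m (hN c (hD1 _ hp)) hm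
      have e2 := mulrow u.x _ m (hN d (hD2 _ hp)) hm
      refine ⟨e1.trans e2.symm, fun h => ?_⟩
      have hu := e1.1 h
      simp only [(mv_mul m u _ hu).1, (mv_mul m u _ hu).2, mul_smul, and_true]
      exact congrArg _ (hHs _ hp)
    | refl p => exact ⟨Iff.rfl, fun _ => ⟨rfl, rfl⟩⟩
    | symm p q _ ih => exact ⟨ih.1.symm, fun h => ⟨(ih.2 (ih.1.2 h)).1.symm, (ih.2 (ih.1.2 h)).2.symm⟩⟩
    | trans p q r _ _ ih ih' =>
      exact ⟨ih.1.trans ih'.1, fun h => ⟨(ih.2 h).1.trans (ih'.2 (ih.1.1 h)).1,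
        (ih.2 h).2.trans (ih'.2 (ih.1.1 h)).2⟩⟩
  let S0 : Set (SM (MM K)) := {s | Sat s.X ∧ s.x ∈ Ma}
  have hS0 : S0.Finite :=
    ((hSat.prod hMa).image fun p => (⟨p.1, p.2⟩ : SM (MM K))).subset
      fun s hs => ⟨(s.X, s.x), hs, rfl⟩
  let H' : Set ((SM (MM K) × Fin n) × (SM (MM K) × Fin n)) :=
    {p | p.1.1 ∈ S0 ∧ p.2.1 ∈ S0 ∧ p.1.1 • b p.1.2 = p.2.1 • b p.2.2}
  refine ⟨n, fun j => ⟨b j, (hB _).2 ⟨b j, hb ▸ ⟨j, rfl⟩, 1, (one_smul _ _).symm⟩⟩, H',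
    ((hS0.prod Set.finite_univ).prod (hS0.prod Set.finite_univ)).subset
      fun p hp => ⟨⟨hp.1, trivial⟩, hp.2.1, trivial⟩, fun x => ?_, fun p q => ⟨fun h => ?_,
      fun h => Subtype.ext (gen_sound b (fun p hp => hp.2.2) h)⟩⟩
  · obtain ⟨t, ht, s, hs⟩ := (hB x).1 x.2
    obtain ⟨j, rfl⟩ := hb ▸ ht
    exact ⟨s, j, Subtype.ext hs⟩
  obtain ⟨s, i⟩ := p
  obtain ⟨t, j⟩ := q
  have h : s • b i = t • b j := congrArg Subtype.val h
  rw [ha, ha j, ← mul_smul, ← mul_smul] at h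
  have hG := (hker (s * a i, ι i) (t * a j, ι j)).1 h
  have step : ∀ (w s t : SM (MM K)) i j, s ∈ S0 → t ∈ S0 → (s * a i) • g (ι i) = (t * a j) • g (ι j) →
      Gen H' (w * s, i) (w * t, j) := fun w s t i j hs ht h =>
    Relation.EqvGen.rel _ _ ⟨w, ((s, i), (t, j)), ⟨hs, ht, by
      simp only [ha i, ha j, ← mul_smul, h]⟩, rfl, rfl⟩
  by_cases hs : s.x ∈ Ma
  · obtain ⟨h1, h2⟩ := Q1 _ _ hG
    have hs' := (mulMa _ _ (hN _ (hD3 i))).2 hs
    have ht : t.x ∈ Ma := (mulMa _ _ (hN _ (hD3 j))).1 (h1.1 hs')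
    obtain ⟨h3, Z, h4, h5, h6⟩ := h2 hs'
    have fill : ∀ (s : SM (MM K)) i, s.x ∈ Ma → (⟨it (s * a i).X, s.x⟩ : SM (MM K)) * a i =
        ⟨it (s * a i).X, (s * a i).x⟩ := fun s i hs => SM.ext (Set.union_eq_self_of_subset_right
          (sub_it _ _ (satD _ hs _ (hD3 i)) Set.subset_union_right)) rfl
    have up : ∀ (s : SM (MM K)) i, s.x ∈ Ma →
        (⟨Z, 1⟩ : SM (MM K)) • (⟨it (s * a i).X, (s * a i).x⟩ : SM (MM K)) • g (ι i) =
        (⟨it (s * a i).X, (s * a i).x⟩ : SM (MM K)) • g (ι i) →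
        Gen H' (s, i) (⟨(s * a i).X ∪ Z, s.x⟩, i) := by
      intro s i hs h5
      have a1 := step ⟨s.X, 1⟩ ⟨∅, s.x⟩ ⟨(fun y => s.x * y) '' (a i).X, s.x⟩ i i
        ⟨satMa _ (Set.empty_subset _), hs⟩ ⟨satD _ hs _ (hD3 i), hs⟩ (by simp [mul_def])
      have a2 := step ⟨(s * a i).X, 1⟩ ⟨it (s * a i).X, s.x⟩ ⟨Z ∪ it (s * a i).X, s.x⟩ i i
        ⟨it_sat _, hs⟩ ⟨satU _ _ h4 (it_sat _), hs⟩ (by
          rw [← e_mul, mul_assoc, mul_smul (SM.mk Z 1), fill s i hs, h5])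
      rw [e_mul, e_mul, Set.union_empty] at a1
      rw [e_mul, e_mul, Set.union_eq_self_of_subset_right (it_sub _), Set.union_comm Z,
        ← Set.union_assoc, Set.union_eq_self_of_subset_right (it_sub _)] at a2
      exact a1.trans _ _ _ a2
    have a3 := step ⟨(s * a i).X ∪ Z, 1⟩ ⟨it (s * a i).X, s.x⟩ ⟨it (t * a j).X, t.x⟩ i j
      ⟨it_sat _, hs⟩ ⟨it_sat _, ht⟩ (by rw [fill s i hs, fill t j ht]; exact h3)
    rw [e_mul, e_mul, Set.union_eq_self_of_subset_right ((it_sub _).trans Set.subset_union_left)] at a3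
    nth_rewrite 2 [show (s * a i).X ∪ Z = (t * a j).X ∪ Z from h6] at a3
    rw [Set.union_eq_self_of_subset_right ((it_sub _).trans Set.subset_union_left)] at a3
    exact ((up s i hs h5).trans _ _ _ a3).trans _ _ _ ((up t j ht (h3 ▸ h5)).symm _ _)
  · obtain ⟨m, hm, hN'⟩ : ∃ m, s.x ∈ row m ∧ N < m := by
      by_contra hc; push Not at hc; exact hs hc
    obtain ⟨h1, h2⟩ := Q2 m hN' _ _ hG
    have ht : t.x ∈ row m := (mulrow _ _ m (hN _ (hD3 j)) hN').1 (h1.1 (row_mul hm _))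
    obtain ⟨h3, h4⟩ := h2 (row_mul hm _)
    simp only [(mv_mul m _ _ hm).1, (mv_mul m _ _ hm).2, (mv_mul m _ _ ht).1,
      (mv_mul m _ _ ht).2] at h3 h4
    have o0 : ∀ x, o * x ∈ Ma := fun x m' h => rowu (row_mul ⟨1, rfl⟩ x) h ▸ Nat.zero_le N
    have inS : ∀ s, mv m s ∈ S0 := fun s => ⟨satMa _ (by rintro _ ⟨x, -, rfl⟩; exact o0 x), o0 _⟩
    have back : ∀ x ∈ row m, el m 1 * (o * x) = x := by
      rintro _ ⟨k, rfl⟩; simp [o, el_mul]
    have fin : ∀ s : SM (MM K), s.x ∈ row m → (⟨s.X \ row m, el m 1⟩ : SM (MM K)) * mv m s = s := by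
      intro s hs
      refine SM.ext ?_ (back _ hs)
      simp only [mul_def, mv, Set.image_image]
      rw [Set.image_congr (g := id) fun x hx => back x hx.2, Set.image_id, Set.sdiff_union_inter]
    have := step ⟨s.X \ row m, el m 1⟩ _ _ i j (inS s) (inS t) h3
    rw [fin s hm, h4, fin t ht] at this
    exact this

theorem not_coh {S : Type} [Monoid S] (lv : S → Prop) (a : S) (ha : lv a)
    (Z : ℕ → S → Prop) (f : S → ℕ) (un : S → Prop)
    (h1 : ∀ s t, lv (s * t) → ¬ un t → un s ∧ lv t) (h0 : ∀ s, ¬ un (s * a))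
    (h2 : ∀ m u c, f c < m → Z m (u * c) → un c) (h2' : ∀ m u c d, un c → un d → Z m (u * c) → Z m (u * d))
    (h3 : ∀ s t, un s → lv t → lv (s * t))
    (h4 : ∀ m s t, a = s * t → ¬ un t → ∃ u v, Z m u ∧ ¬ Z m v ∧ u * t = v * t) : ¬ LeftCoherent S := by
  intro h
  obtain ⟨k, g, H, hH, hg, hker⟩ := h S ⟨1, fun _ => 1, ∅, Set.finite_empty,
    fun a => ⟨a, 0, by simp⟩, fun a b => ⟨fun h => by
      have : a = b := Prod.ext (by simpa using h) (Subsingleton.elim _ _)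
      exact this ▸ Relation.EqvGen.refl _, gen_sound (A := S) (fun _ => 1) (by simp)⟩⟩
    ⟨{x | ∃ s, x = s * a}, by rintro c _ ⟨s, rfl⟩; exact ⟨c * s, (mul_assoc _ _ _).symm⟩⟩
    ⟨{a}, Set.finite_singleton a, fun x => by simp; rfl⟩
  have hnu : ∀ i, ¬ un (g i).1 := fun i => by obtain ⟨s, hs⟩ := (g i).2; rw [hs]; exact h0 s
  have hHs : ∀ p ∈ H, p.1.1 * (g p.1.2).1 = p.2.1 * (g p.2.2).1 := fun p hp =>
    congrArg Subtype.val ((hker _ _).2 (Relation.EqvGen.rel _ _ ⟨1, p, hp, by simp, by simp⟩))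
  obtain ⟨N, hN⟩ := (hH.image fun p => max (f p.1.1) (f p.2.1)).bddAbove
  have key : ∀ p q, Gen H p q → (Z (N + 1) p.1 ∧ lv (g p.2).1 ↔ Z (N + 1) q.1 ∧ lv (g q.2).1) := by
    intro p q h
    induction h with
    | rel p q h =>
      obtain ⟨u, p, hp, rfl, rfl⟩ := h
      have hb : max (f p.1.1) (f p.2.1) ≤ N := hN ⟨p, hp, rfl⟩
      have e := hHs p hp
      constructor
      · rintro ⟨a1, a2⟩
        have a3 := h2 _ _ _ (by omega) a1
        have a4 := h1 _ _ (e ▸ h3 _ _ a3 a2) (hnu _)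
        exact ⟨h2' _ _ _ _ a3 a4.1 a1, a4.2⟩
      · rintro ⟨a1, a2⟩
        have a3 := h2 _ _ _ (by omega) a1
        have a4 := h1 _ _ (e ▸ h3 _ _ a3 a2) (hnu _)
        exact ⟨h2' _ _ _ _ a3 a4.1 a1, a4.2⟩
    | refl => rfl
    | symm _ _ _ ih => exact ih.symm
    | trans _ _ _ _ _ h1 h2 => exact h1.trans h2
  obtain ⟨s, i, hs⟩ := hg ⟨a, 1, (one_mul a).symm⟩
  have hs : a = s * (g i).1 := congrArg Subtype.val hs
  obtain ⟨u, v, hu, hv, huv⟩ := h4 (N + 1) s _ hs (hnu i)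
  exact hv ((key _ _ ((hker (u, i) (v, i)).1 (Subtype.ext huv))).1
    ⟨hu, (h1 _ _ (hs ▸ ha) (hnu i)).2⟩).1

def fi (x : MM K2) : ℕ := WithOne.recOneCoe 0 (fun p : LZ × K2 => p.1) x

theorem el2 (m m' : ℕ) (k k' : K2) : el m k * el m' k' = el m K2.f := rfl

theorem tf : K2.t ≠ K2.f := by simp

theorem not_left : ¬ LeftCoherent (SM (MM K2)) := by
  refine not_coh (fun s => ∃ m, s.x = el m K2.t) ⟨∅, el 0 K2.t⟩ ⟨0, rfl⟩
    (fun m s => s.x = el m K2.t) (fun s => fi s.x) (fun s => s.x = 1) ?_ ?_ ?_ ?_ ?_ ?_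
  · rintro ⟨X, x⟩ ⟨Y, y⟩ ⟨m, h⟩ hy
    rcases cases_MM x with rfl | ⟨m1, k1, rfl⟩
    · exact ⟨rfl, m, by simpa [mul_def] using h⟩
    · rcases cases_MM y with rfl | ⟨m2, k2, rfl⟩
      exacts [absurd rfl hy, absurd (el_inj h).2.symm tf]
  · rintro ⟨X, x⟩ h
    rcases cases_MM x with rfl | ⟨m1, k1, rfl⟩
    exacts [el_ne _ _ ((one_mul _).symm.trans h), el_ne _ _ h]
  · rintro m ⟨X, x⟩ ⟨Y, y⟩ hf h
    rcases cases_MM y with rfl | ⟨m2, k2, rfl⟩
    · rfl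
    rcases cases_MM x with rfl | ⟨m1, k1, rfl⟩
    · obtain rfl := (el_inj ((one_mul _).symm.trans h)).1
      exact absurd hf (lt_irrefl _)
    · exact absurd (el_inj h).2.symm tf
  · intro m u c d hc hd h
    simp only [mul_def, hc, hd] at h ⊢; exact h
  · rintro s t hs ⟨m, ht⟩; exact ⟨m, by simp [mul_def, hs, ht]⟩
  · rintro m ⟨X, x⟩ ⟨Y, y⟩ h hy
    have hY : Y = ∅ := by
      have := congrArg SM.X h
      simp only [mul_def] at this
      simpa using (Set.union_empty_iff.1 this.symm).2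
    subst hY
    rcases cases_MM y with rfl | ⟨m2, k2, rfl⟩
    · exact absurd rfl hy
    exact ⟨⟨∅, el m K2.t⟩, ⟨∅, el m K2.f⟩, rfl, fun h => tf (el_inj h).2.symm,
      by simp [mul_def, el2]⟩

theorem not_right : ¬ LeftCoherent (SM (MM K2))ᵐᵒᵖ := by
  refine not_coh (fun s => ∃ m, s.unop.x = el m K2.t) (MulOpposite.op ⟨∅, el 0 K2.t⟩)
    ⟨0, rfl⟩ (fun m s => s.unop.x = el m K2.t) (fun s => fi s.unop.x)
    (fun s => s.unop.x = 1) ?_ ?_ ?_ ?_ ?_ ?_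
  · rintro ⟨X, x⟩ ⟨Y, y⟩ ⟨m, h⟩ hy
    rcases cases_MM x with rfl | ⟨m1, k1, rfl⟩
    · exact ⟨rfl, m, (mul_one _).symm.trans h⟩
    · rcases cases_MM y with rfl | ⟨m2, k2, rfl⟩
      exacts [absurd rfl hy, absurd (el_inj h).2.symm tf]
  · rintro ⟨X, x⟩ h
    rcases cases_MM x with rfl | ⟨m1, k1, rfl⟩
    exacts [el_ne _ _ ((mul_one _).symm.trans h), el_ne _ _ h]
  · rintro m ⟨X, x⟩ ⟨Y, y⟩ hf h
    rcases cases_MM y with rfl | ⟨m2, k2, rfl⟩
    · rfl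
    rcases cases_MM x with rfl | ⟨m1, k1, rfl⟩
    · obtain rfl := (el_inj ((mul_one _).symm.trans h)).1
      exact absurd hf (lt_irrefl _)
    · exact absurd (el_inj h).2.symm tf
  · intro m u c d hc hd h
    simp only [MulOpposite.unop_mul, mul_def, hc, hd] at h ⊢; exact h
  · rintro s t hs ⟨m, ht⟩; exact ⟨m, by simp [mul_def, hs, ht]⟩
  · rintro m s ⟨Y, y⟩ - hy
    rcases cases_MM y with rfl | ⟨m2, k2, rfl⟩
    · exact absurd rfl hy
    refine ⟨MulOpposite.op ⟨∅, el m K2.t⟩, MulOpposite.op ⟨∅, el m K2.f⟩, rfl,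
      fun h => tf (el_inj h).2.symm, MulOpposite.unop_injective (SM.ext ?_ rfl)⟩
    change Y ∪ _ '' ∅ = Y ∪ _ '' ∅
    simp

theorem result : ∃ (M T : Type) (_ : Monoid M) (_ : Monoid T),
    ¬ LeftCoherent (SM M) ∧ ¬ LeftCoherent (SM M)ᵐᵒᵖ ∧
    (∃ f : SM M →ₙ* T, Function.Injective f) ∧ LeftCoherent T := by
  have : Finite (WithOne K2) := inferInstanceAs (Finite (Option K2))
  let φ : MM K2 →* MM (WithOne K2) := WithOne.mapMulHom (MulHom.prodMap (MulHom.id _) WithOne.coeMulHom)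
  have hφ : Function.Injective φ := by
    intro x y h
    rcases cases_MM x with rfl | ⟨m1, k1, rfl⟩ <;> rcases cases_MM y with rfl | ⟨m2, k2, rfl⟩
    · rfl
    · exact absurd (h.symm.trans (map_one φ)) (el_ne m2 (k2 : WithOne K2))
    · exact absurd (h.trans (map_one φ)) (el_ne m1 (k1 : WithOne K2))
    · obtain ⟨rfl, h2⟩ := el_inj (show el m1 (k1 : WithOne K2) = el m2 (k2 : WithOne K2) from h)
      rw [WithOne.coe_inj.1 h2]
  refine ⟨MM K2, SM (MM (WithOne K2)), inferInstance, inferInstance, not_left, not_right,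
    ⟨⟨fun s => ⟨φ '' s.X, φ s.x⟩, fun s t => ?_⟩, fun s t h => ?_⟩, coherent _⟩
  · simp only [mul_def, Set.image_union, Set.image_image, map_mul]
  · exact SM.ext (hφ.image_injective (congrArg SM.X h)) (hφ (congrArg SM.x h))

end Pool.Agent.Results.MP_811a2c_al.Embeds
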